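import Pool.Agent.H95.MM5

set_option autoImplicit false

open Pool.Agent.H95.Mms

theorem Pool.Agent.Results.MP_de432b_gt.ContrBox.result :
    @ContractibleSpace Punct (punctTop box) :=
  th_box.punct
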